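import Pool.Agent.Helper80.Tor.Stack

/-!
# Counting with a stacking (Louder, Wilton)
-/

set_option autoImplicit false
set_option linter.unusedSectionVars false

namespace Pool.Agent.Helper80.Tor

section count

variable {A V E T : Type*} {l : ℕ} [NeZero l] [Finite T]
  (x : ZMod l → A × Bool) (lt : ZMod l → ZMod l → Prop)
  (nx : T ≃ T) (pos : T → ZMod l) (vt : T → V) (ed : T → E)

/-- top strand at its vertex -/
def TV (s : T) : Prop := ∀ t, vt t = vt s → t ≠ s → lt (pos t) (pos s)

/-- position at the reference end of the crossed edge -/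
def rf (s : T) : ZMod l := if (x (pos s)).2 then pos s else pos s + 1

/-- top strand at its edge -/
def TE (s : T) : Prop := ∀ t, ed t = ed s → t ≠ s → lt (rf x pos t) (rf x pos s)

/-- hypotheses on a system of strands -/
structure IsStrands : Prop where
  red : ∀ i, x (i + 1) ≠ fl (x i)
  stack : IsStack x lt
  pos_nx : ∀ s, pos (nx s) = pos s + 1
  inj : ∀ s t, vt s = vt t → pos s = pos t → s = t
  ed_eq : ∀ s t, ed s = ed t →
    (x (pos s) = x (pos t) ∧ vt s = vt t ∧ vt (nx s) = vt (nx t)) ∨
    (x (pos s) = fl (x (pos t)) ∧ vt s = vt (nx t) ∧ vt (nx s) = vt t)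

variable {x lt nx pos vt ed}

theorem IsStrands.ne_nx (h : IsStrands x lt nx pos vt ed) {s t : T}
    (hx : x (pos s) = fl (x (pos t))) : s ≠ nx t := by
  rintro rfl
  rw [h.pos_nx] at hx
  exact h.red _ hx

theorem IsStrands.rf_lt_same (h : IsStrands x lt nx pos vt ed) {s t : T}
    (hx : x (pos s) = x (pos t)) : lt (rf x pos t) (rf x pos s) ↔ lt (pos t) (pos s) := by
  unfold rf
  rw [hx]
  split_ifs
  · exact Iff.rfl
  · exact (h.stack.same _ _ hx.symm).symm

theorem IsStrands.rf_lt_opp (h : IsStrands x lt nx pos vt ed) {s t : T}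
    (hx : x (pos s) = fl (x (pos t))) : lt (rf x pos t) (rf x pos s) ↔ lt (pos t + 1) (pos s) := by
  have hx' : x (pos t) = fl (x (pos s)) := by rw [hx, fl_fl]
  unfold rf
  cases hb : (x (pos t)).2
  · have : (x (pos s)).2 = true := by rw [hx]; simp [fl, hb]
    rw [this]
    simp
  · have : (x (pos s)).2 = false := by rw [hx]; simp [fl, hb]
    rw [this]
    simp only [if_true, Bool.false_eq_true, if_false]
    exact h.stack.opp _ _ hx'

theorem IsStrands.rf_ne (h : IsStrands x lt nx pos vt ed) {s t : T} (he : ed s = ed t)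
    (hne : s ≠ t) : rf x pos s ≠ rf x pos t := by
  intro hr
  rcases h.ed_eq s t he with ⟨h1, h2, h3⟩ | ⟨h1, h2, h3⟩
  · unfold rf at hr
    rw [h1] at hr
    apply hne
    apply h.inj s t h2
    split_ifs at hr
    · exact hr
    · exact add_right_cancel hr
  · unfold rf at hr
    cases hb : (x (pos t)).2
    · have hs : (x (pos s)).2 = true := by rw [h1]; simp [fl, hb]
      rw [hs, hb] at hr
      simp only [if_true, Bool.false_eq_true, if_false] at hr
      refine h.ne_nx h1 (h.inj _ _ h2 ?_)
      rw [h.pos_nx, hr]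
    · have hs : (x (pos s)).2 = false := by rw [h1]; simp [fl, hb]
      rw [hs, hb] at hr
      simp only [if_true, Bool.false_eq_true, if_false] at hr
      have h1' : x (pos t) = fl (x (pos s)) := by rw [h1, fl_fl]
      refine h.ne_nx h1' (h.inj _ _ h3.symm ?_)
      rw [h.pos_nx, hr]

theorem IsStrands.TE_of_TV (h : IsStrands x lt nx pos vt ed) {s : T} (hs : TV lt pos vt s) :
    TE x lt pos ed s := by
  intro t ht hne
  rcases h.ed_eq s t ht.symm with ⟨h1, h2, h3⟩ | ⟨h1, h2, h3⟩
  · rw [h.rf_lt_same h1]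
    exact hs t h2.symm hne
  · rw [h.rf_lt_opp h1, ← h.pos_nx]
    exact hs _ h2.symm (h.ne_nx h1).symm

theorem IsStrands.TE_of_TV_nx (h : IsStrands x lt nx pos vt ed) {s : T}
    (hs : TV lt pos vt (nx s)) : TE x lt pos ed s := by
  intro t ht hne
  rcases h.ed_eq s t ht.symm with ⟨h1, h2, h3⟩ | ⟨h1, h2, h3⟩
  · rw [h.rf_lt_same h1, h.stack.same _ _ h1.symm, ← h.pos_nx, ← h.pos_nx]
    exact hs _ h3.symm fun h' => hne (nx.injective h')
  · have h1' : x (pos t) = fl (x (pos s)) := by rw [h1, fl_fl]
    rw [h.rf_lt_opp h1, ← h.stack.opp _ _ h1', ← h.pos_nx]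
    exact hs _ h3.symm (h.ne_nx h1')

/-- maximal elements of finite sets for a relation which is total and transitive -/
theorem exists_top {l : ℕ} {lt : ZMod l → ZMod l → Prop} (htr : ∀ i j k, lt i j → lt j k → lt i k)
    (hto : ∀ i j, i ≠ j → lt i j ∨ lt j i) {T : Type*} (S : Finset T) (f : T → ZMod l)
    (hf : ∀ s ∈ S, ∀ t ∈ S, f s = f t → s = t) (hne : S.Nonempty) :
    ∃ s ∈ S, ∀ t ∈ S, t ≠ s → lt (f t) (f s) := by
  classical
  induction S using Finset.induction with
  | empty => simp at hne
  | insert a S ha ih =>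
    rcases S.eq_empty_or_nonempty with rfl | hS
    · refine ⟨a, by simp, ?_⟩
      intro t ht hta
      simp at ht
      exact absurd ht hta
    · obtain ⟨s, hs, hmax⟩ := ih (fun s hs t ht => hf s (Finset.mem_insert_of_mem hs) t
        (Finset.mem_insert_of_mem ht)) hS
      have hne' : f a ≠ f s := fun h => ha (by
        rw [hf a (Finset.mem_insert_self _ _) s (Finset.mem_insert_of_mem hs) h]; exact hs)
      rcases hto _ _ hne' with h | h
      · refine ⟨s, Finset.mem_insert_of_mem hs, ?_⟩
        intro t ht hts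
        rcases Finset.mem_insert.1 ht with rfl | ht
        · exact h
        · exact hmax t ht hts
      · refine ⟨a, Finset.mem_insert_self _ _, ?_⟩
        intro t ht hta
        rcases Finset.mem_insert.1 ht with rfl | ht
        · exact absurd rfl hta
        · by_cases hts : t = s
          · rw [hts]; exact h
          · exact htr _ _ _ (hmax t ht hts) h

theorem IsStrands.asymm (h : IsStrands x lt nx pos vt ed) {i j : ZMod l} (h1 : lt i j)
    (h2 : lt j i) : False := h.stack.irrefl _ (h.stack.trans _ _ _ h1 h2)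

theorem IsStrands.card_TV (h : IsStrands x lt nx pos vt ed) :
    Nat.card {s // TV lt pos vt s} = (Set.range vt).ncard := by
  classical
  have := Fintype.ofFinite T
  rw [← Nat.card_coe_set_eq]
  refine Nat.card_congr (Equiv.ofBijective (fun s => ⟨vt s.1, s.1, rfl⟩) ⟨?_, ?_⟩)
  · rintro ⟨s, hs⟩ ⟨t, ht⟩ hst
    simp only [Subtype.mk.injEq] at hst ⊢
    by_contra hne
    exact h.asymm (hs t hst.symm (Ne.symm hne)) (ht s hst hne)
  · rintro ⟨v, s0, rfl⟩
    obtain ⟨s, hs, hmax⟩ := exists_top h.stack.trans h.stack.total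
      (Finset.univ.filter fun s => vt s = vt s0) pos
      (fun s hs t ht hst => h.inj s t (by
        rw [(Finset.mem_filter.1 hs).2, (Finset.mem_filter.1 ht).2]) hst)
      ⟨s0, by simp⟩
    have hs' := (Finset.mem_filter.1 hs).2
    refine ⟨⟨s, fun t ht hne => hmax t ?_ hne⟩, Subtype.ext hs'⟩
    simp [ht, hs']

theorem IsStrands.card_TE (h : IsStrands x lt nx pos vt ed) :
    Nat.card {s // TE x lt pos ed s} = (Set.range ed).ncard := by
  classical
  have := Fintype.ofFinite T
  rw [← Nat.card_coe_set_eq]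
  refine Nat.card_congr (Equiv.ofBijective (fun s => ⟨ed s.1, s.1, rfl⟩) ⟨?_, ?_⟩)
  · rintro ⟨s, hs⟩ ⟨t, ht⟩ hst
    simp only [Subtype.mk.injEq] at hst ⊢
    by_contra hne
    exact h.asymm (hs t hst.symm (Ne.symm hne)) (ht s hst hne)
  · rintro ⟨v, s0, rfl⟩
    obtain ⟨s, hs, hmax⟩ := exists_top h.stack.trans h.stack.total
      (Finset.univ.filter fun s => ed s = ed s0) (rf x pos)
      (fun s hs t ht hst => by
        by_contra hne
        exact h.rf_ne (by rw [(Finset.mem_filter.1 hs).2, (Finset.mem_filter.1 ht).2]) hne hst)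
      ⟨s0, by simp⟩
    have hs' := (Finset.mem_filter.1 hs).2
    refine ⟨⟨s, fun t ht hne => hmax t ?_ hne⟩, Subtype.ext hs'⟩
    simp [ht, hs']

theorem IsStrands.pos_pow (h : IsStrands x lt nx pos vt ed) (s : T) (k : ℕ) :
    pos ((nx ^ k) s) = pos s + k := by
  induction k with
  | zero => simp
  | succ k ih =>
    rw [pow_succ', Equiv.Perm.mul_apply, h.pos_nx, ih]
    push_cast
    ring

theorem IsStrands.count (h : IsStrands x lt nx pos vt ed) :
    Nat.card {s // pos s = 0} + (Set.range vt).ncard ≤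
      (Set.range ed).ncard + {e | ∃ s, ed s = e ∧ ∀ t, ed t = e → t = s}.ncard := by
  classical
  have hl : 0 < l := Nat.pos_of_ne_zero (NeZero.ne l)
  have := Fintype.ofFinite T
  have : Fintype (ZMod l) := ZMod.fintype l
  -- the extreme positions
  obtain ⟨iM, -, hM⟩ := exists_top h.stack.trans h.stack.total (Finset.univ : Finset (ZMod l)) id
    (fun s _ t _ hst => hst) ⟨0, Finset.mem_univ _⟩
  obtain ⟨im, -, hm⟩ := exists_top (lt := fun i j => lt j i)
    (fun i j k h1 h2 => h.stack.trans _ _ _ h2 h1)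
    (fun i j hij => (h.stack.total i j hij).symm) (Finset.univ : Finset (ZMod l)) id
    (fun s _ t _ hst => hst) ⟨0, Finset.mem_univ _⟩
  simp only [Finset.mem_univ, id, forall_const] at hM hm
  have hTV : ∀ s, pos s = iM → TV lt pos vt s := by
    intro s hs t ht hne
    rw [hs]
    apply hM
    intro h'
    exact hne (h.inj t s ht (h'.trans hs.symm))
  -- the bijection between the strands at position 0 and at the lowest position
  have hD : Nat.card {s // pos s = 0} = Nat.card {s // pos s = im} := by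
    refine Nat.card_congr (Equiv.subtypeEquiv (nx ^ im.val : Equiv.Perm T) ?_)
    intro s
    rw [h.pos_pow, ZMod.natCast_zmod_val]
    exact ⟨fun hs => by rw [hs, zero_add], fun hs => by simpa using hs⟩
  have hsplit : Nat.card {s // pos s = im} ≤ Nat.card {s // pos s = im ∧ ¬ TE x lt pos ed s} +
      Nat.card {s // pos s = im ∧ TE x lt pos ed s} := by
    rw [← Nat.card_sum]
    refine Nat.card_le_card_of_injective (fun s => if hs : TE x lt pos ed s.1 then
      Sum.inr ⟨s.1, s.2, hs⟩ else Sum.inl ⟨s.1, s.2, hs⟩) ?_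
    rintro ⟨s, hs⟩ ⟨t, ht⟩ hst
    simp only at hst
    split_ifs at hst
    · simp only [Sum.inr.injEq, Subtype.mk.injEq] at hst
      exact Subtype.ext hst
    · simp only [Sum.inl.injEq, Subtype.mk.injEq] at hst
      exact Subtype.ext hst
  have honce : Nat.card {s // pos s = im ∧ TE x lt pos ed s} ≤
      {e | ∃ s, ed s = e ∧ ∀ t, ed t = e → t = s}.ncard := by
    rw [← Nat.card_coe_set_eq]
    have hone : ∀ s, pos s = im → TE x lt pos ed s → ∀ t, ed t = ed s → t = s := by
      intro s hs hE t ht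
      by_contra hne
      have h1 := hE t ht hne
      rcases h.ed_eq s t ht.symm with ⟨h2, h3, h4⟩ | ⟨h2, h3, h4⟩
      · rw [h.rf_lt_same h2, hs] at h1
        by_cases h5 : pos t = im
        · rw [h5] at h1
          exact h.stack.irrefl _ h1
        · exact h.asymm h1 (hm _ h5)
      · rw [h.rf_lt_opp h2, hs] at h1
        by_cases h5 : pos t + 1 = im
        · rw [h5] at h1
          exact h.stack.irrefl _ h1
        · exact h.asymm h1 (hm _ h5)
    have : Finite {e | ∃ s, ed s = e ∧ ∀ t, ed t = e → t = s} :=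
      Set.Finite.subset (Set.finite_range ed) (by rintro e ⟨s, rfl, -⟩; exact ⟨s, rfl⟩)
    refine Nat.card_le_card_of_injective
      (fun s => ⟨ed s.1, s.1, rfl, hone s.1 s.2.1 s.2.2⟩) ?_
    rintro ⟨s, hs, hE⟩ ⟨t, ht, hE'⟩ hst
    simp only [Subtype.mk.injEq] at hst ⊢
    exact (hone t ht hE' s hst)
  -- the first top crossing after a non-top crossing at the lowest position
  have hfirst : ∀ s, pos s = im → ¬ TE x lt pos ed s →
      ∃ k, 1 ≤ k ∧ k < l ∧ TE x lt pos ed ((nx ^ k) s) ∧ ¬ TV lt pos vt ((nx ^ k) s) := by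
    intro s hs hE
    have hex : ∃ k, TE x lt pos ed ((nx ^ k) s) ∧ k < l ∧ 1 ≤ k := by
      have hv : (iM - im).val < l := ZMod.val_lt _
      have h1 : TV lt pos vt ((nx ^ (iM - im).val) s) := by
        apply hTV
        rw [h.pos_pow, ZMod.natCast_zmod_val, hs]
        ring
      rcases Nat.lt_or_ge 1 (iM - im).val with h2 | h2
      · refine ⟨(iM - im).val - 1, ?_, by omega, by omega⟩
        apply h.TE_of_TV_nx
        rw [← Equiv.Perm.mul_apply, ← pow_succ']
        rwa [Nat.sub_add_cancel (by omega)]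
      · exfalso
        apply hE
        rcases Nat.lt_or_ge 0 (iM - im).val with h3 | h3
        · have h4 : (iM - im).val = 1 := by omega
          rw [h4, pow_one] at h1
          exact h.TE_of_TV_nx h1
        · have h4 : (iM - im).val = 0 := by omega
          rw [h4, pow_zero] at h1
          exact h.TE_of_TV h1
    have hmin := Nat.find_spec hex
    refine ⟨Nat.find hex, hmin.2.2, hmin.2.1, hmin.1, ?_⟩
    intro hT
    have h1 : (nx ^ Nat.find hex) s = nx ((nx ^ (Nat.find hex - 1)) s) := by
      rw [← Equiv.Perm.mul_apply, ← pow_succ', Nat.sub_add_cancel hmin.2.2]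
    rw [h1] at hT
    have h2 := h.TE_of_TV_nx hT
    rcases Nat.lt_or_ge 1 (Nat.find hex) with h3 | h3
    · exact Nat.find_min hex (m := Nat.find hex - 1) (by omega) ⟨h2, by omega, by omega⟩
    · have h4 : Nat.find hex - 1 = 0 := by omega
      rw [h4, pow_zero] at h2
      exact hE h2
  choose! kf hk1 hk2 hk3 hk4 using hfirst
  have hinj : Nat.card {s // pos s = im ∧ ¬ TE x lt pos ed s} + Nat.card {s // TV lt pos vt s} ≤
      Nat.card {s // TE x lt pos ed s} := by
    rw [← Nat.card_sum]
    refine Nat.card_le_card_of_injective (fun p => Sum.rec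
      (fun s => ⟨(nx ^ (kf s.1)) s.1, hk3 s.1 s.2.1 s.2.2⟩) (fun s => ⟨s.1, h.TE_of_TV s.2⟩) p) ?_
    rintro (⟨s, hs, hs'⟩ | ⟨s, hs⟩) (⟨t, ht, ht'⟩ | ⟨t, ht⟩) hst
    · simp only [Subtype.mk.injEq] at hst
      have h1 := congrArg pos hst
      rw [h.pos_pow, h.pos_pow, hs, ht] at h1
      have h2 := add_left_cancel h1
      have h3 : kf s = kf t := by
        have := (ZMod.natCast_eq_natCast_iff' _ _ _).1 h2
        rwa [Nat.mod_eq_of_lt (hk2 s hs hs'), Nat.mod_eq_of_lt (hk2 t ht ht')] at this
      rw [h3] at hst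
      have h4 := (nx ^ (kf t) : Equiv.Perm T).injective hst
      subst h4
      rfl
    · simp only [Subtype.mk.injEq] at hst
      exfalso
      apply hk4 s hs hs'
      rw [hst]
      exact ht
    · simp only [Subtype.mk.injEq] at hst
      exfalso
      apply hk4 t ht ht'
      rw [← hst]
      exact hs
    · simp only [Subtype.mk.injEq] at hst
      subst hst
      rfl
  rw [h.card_TV, h.card_TE] at hinj
  omega

end count

end Pool.Agent.Helper80.Tor
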