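import Mathlib

/-!
# Stackings of cyclic words (Louder, Wilton)

Every cyclically reduced, nonperiodic cyclic word has a stacking: a linear order on its positions
which is preserved by parallel transport along equal and inverse letters.
-/

set_option autoImplicit false
set_option linter.unusedSectionVars false

namespace Pool.Agent.Helper80.Tor

variable {A : Type*}

/-- inverse of a letter -/
def fl (p : A × Bool) : A × Bool := (p.1, !p.2)

@[simp] theorem fl_fl (p : A × Bool) : fl (fl p) = p := by simp [fl]

theorem fl_ne (p : A × Bool) : fl p ≠ p := by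
  intro h
  have := congrArg Prod.snd h
  simp [fl] at this

/-- a stacking of the cyclic word `x` -/
structure IsStack {l : ℕ} (x : ZMod l → A × Bool) (lt : ZMod l → ZMod l → Prop) : Prop where
  trans : ∀ i j k, lt i j → lt j k → lt i k
  irrefl : ∀ i, ¬ lt i i
  total : ∀ i j, i ≠ j → lt i j ∨ lt j i
  same : ∀ i j, x i = x j → (lt i j ↔ lt (i + 1) (j + 1))
  opp : ∀ i j, x i = fl (x j) → (lt i (j + 1) ↔ lt (i + 1) j)

/-- a deterministic equivalence relation on positions -/
structure IsDet {l : ℕ} (x : ZMod l → A × Bool) (r : Setoid (ZMod l)) : Prop where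
  same : ∀ i j, r i j → x i = x j → r (i + 1) (j + 1)
  same' : ∀ i j, r (i + 1) (j + 1) → x i = x j → r i j
  opp : ∀ i j, r i (j + 1) → x i = fl (x j) → r (i + 1) j

/-- a stacking relative to an equivalence relation -/
structure IsStackOn {l : ℕ} (x : ZMod l → A × Bool) (r : Setoid (ZMod l))
    (lt : ZMod l → ZMod l → Prop) : Prop where
  trans : ∀ i j k, r i j → r j k → lt i j → lt j k → lt i k
  irrefl : ∀ i, ¬ lt i i
  total : ∀ i j, r i j → i ≠ j → lt i j ∨ lt j i
  same : ∀ i j, r i j → x i = x j → (lt i j ↔ lt (i + 1) (j + 1))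
  opp : ∀ i j, r i (j + 1) → x i = fl (x j) → (lt i (j + 1) ↔ lt (i + 1) j)

section key

variable {l : ℕ} [NeZero l] (x : ZMod l → A × Bool) (r : Setoid (ZMod l))

open Classical in
/-- the (positive) edge crossed at a position -/
noncomputable def edq (i : ZMod l) : Quotient r × A :=
  if (x i).2 then (Quotient.mk r i, (x i).1) else (Quotient.mk r (i + 1), (x i).1)

theorem edq_inj (hr : IsDet x r) {i j : ZMod l} (h : edq x r i = edq x r j)
    (h2 : (x i).2 = (x j).2) : r i j ∧ x i = x j := by
  unfold edq at h
  by_cases hi : (x i).2 = true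
  · have hj : (x j).2 = true := by rw [← h2]; exact hi
    rw [if_pos hi, if_pos hj, Prod.mk.injEq] at h
    exact ⟨Quotient.exact h.1, Prod.ext h.2 h2⟩
  · have hj : ¬ (x j).2 = true := by rw [← h2]; exact hi
    rw [if_neg hi, if_neg hj, Prod.mk.injEq] at h
    have hx : x i = x j := Prod.ext h.2 h2
    exact ⟨hr.same' i j (Quotient.exact h.1) hx, hx⟩

theorem edq_opp (hr : IsDet x r) {i j : ZMod l} (h : edq x r i = edq x r j)
    (h2 : (x i).2 ≠ (x j).2) : r i (j + 1) ∧ r (i + 1) j ∧ x i = fl (x j) := by
  unfold edq at h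
  by_cases hi : (x i).2 = true
  · have hj : ¬ (x j).2 = true := fun h' => h2 (hi.trans h'.symm)
    rw [if_pos hi, if_neg hj, Prod.mk.injEq] at h
    have hx : x i = fl (x j) := by
      refine Prod.ext h.2 ?_
      simp only [Bool.not_eq_true] at hj
      simp [fl, hi, hj]
    have h3 : r i (j + 1) := Quotient.exact h.1
    exact ⟨h3, hr.opp i j h3 hx, hx⟩
  · have hj : (x j).2 = true := by
      by_contra h'
      simp only [Bool.not_eq_true] at hi h'
      exact h2 (hi.trans h'.symm)
    rw [if_neg hi, if_pos hj, Prod.mk.injEq] at h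
    have hx : x j = fl (x i) := by
      refine Prod.ext h.2.symm ?_
      simp only [Bool.not_eq_true] at hi
      simp [fl, hi, hj]
    have h3 : r j (i + 1) := r.symm' (Quotient.exact h.1)
    refine ⟨r.symm' (hr.opp j i h3 hx), r.symm' h3, ?_⟩
    rw [hx, fl_fl]

theorem edq_same (hr : IsDet x r) {i j : ZMod l} (h : r i j) (h2 : x i = x j) :
    edq x r i = edq x r j := by
  unfold edq
  rw [h2, Quotient.sound h, Quotient.sound (hr.same i j h h2)]

theorem edq_fl (hr : IsDet x r) {i j : ZMod l} (h : r i (j + 1)) (h2 : x i = fl (x j)) :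
    edq x r i = edq x r j := by
  have h3 := hr.opp i j h h2
  unfold edq
  rw [h2]
  by_cases hj : (x j).2 = true
  · have : (fl (x j)).2 = false := by simp [fl, hj]
    rw [this, if_neg (by simp), if_pos hj, Quotient.sound h3]
    rfl
  · have : (fl (x j)).2 = true := by simp only [Bool.not_eq_true] at hj; simp [fl, hj]
    rw [this, if_pos rfl, if_neg hj, Quotient.sound h]
    rfl

variable {x r}

/-- if every class has only two darts, the word is periodic or not reduced -/
theorem period (hr : IsDet x r) (hred : ∀ i, x (i + 1) ≠ fl (x i))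
    (hper : ∀ d : ZMod l, d ≠ 0 → ∃ i, x (i + d) ≠ x i)
    (hd : ∀ i j, r i j → x i = x j ∨ (x i = fl (x (j - 1)) ∧ x j = fl (x (i - 1)))) :
    ∀ i j, r i j → i = j := by
  have hO : ∀ i j, r i j → x i = fl (x (j - 1)) → x j = fl (x (i - 1)) → False := by
    intro i j hij h1 h2
    have key : ∀ m : ℕ, r (i + m) (j - m) ∧ x (i + m) = fl (x (j - m - 1)) ∧
        x (j - m) = fl (x (i + m - 1)) := by
      intro m
      induction m with
      | zero => simpa using ⟨hij, h1, h2⟩
      | succ m ih =>
        obtain ⟨g1, g2, g3⟩ := ih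
        have g4 : r (i + m + 1) (j - m - 1) := by
          refine hr.opp _ _ ?_ g2
          rwa [sub_add_cancel]
        have e1 : i + ((m + 1 : ℕ) : ZMod l) = i + m + 1 := by push_cast; ring
        have e2 : j - ((m + 1 : ℕ) : ZMod l) = j - m - 1 := by push_cast; ring
        rw [e1, e2]
        refine ⟨g4, ?_⟩
        rcases hd _ _ g4 with g5 | g5
        · exfalso
          refine hred (i + m) ?_
          rw [g5, g2, fl_fl]
        · exact g5
    obtain ⟨m, hm⟩ := Nat.even_or_odd' (j - i).val
    have hv : (((j - i).val : ℕ) : ZMod l) = j - i := ZMod.natCast_zmod_val _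
    rcases hm with hm | hm
    · rw [hm] at hv
      push_cast at hv
      obtain ⟨-, g2, -⟩ := key m
      have : j - m = i + m := by linear_combination -hv
      rw [this] at g2
      refine hred (i + m - 1) ?_
      rw [sub_add_cancel]
      exact g2
    · rw [hm] at hv
      push_cast at hv
      obtain ⟨-, g2, -⟩ := key m
      have : j - m - 1 = i + m := by linear_combination -hv
      rw [this] at g2
      exact fl_ne _ g2.symm
  intro i j hij
  by_contra hne
  have hS : ∀ i j, r i j → x i = x j := by
    intro i j hij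
    rcases hd i j hij with h | h
    · exact h
    · exact (hO i j hij h.1 h.2).elim
  have key : ∀ m : ℕ, r (i + m) (j + m) := by
    intro m
    induction m with
    | zero => simpa using hij
    | succ m ih =>
      have := hr.same _ _ ih (hS _ _ ih)
      convert this using 1 <;> push_cast <;> ring
  obtain ⟨k, hk⟩ := hper (j - i) (sub_ne_zero.2 (Ne.symm hne))
  apply hk
  have h1 := hS _ _ (key (k - i).val)
  rw [ZMod.natCast_zmod_val] at h1
  have e1 : i + (k - i) = k := by ring
  have e2 : j + (k - i) = k + (j - i) := by ring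
  rw [e1, e2] at h1
  exact h1.symm

/-- if some class is nontrivial, there are more edges than vertices -/
theorem card_lt (hr : IsDet x r) (hred : ∀ i, x (i + 1) ≠ fl (x i))
    (hper : ∀ d : ZMod l, d ≠ 0 → ∃ i, x (i + d) ≠ x i) (hne : ∃ i j, r i j ∧ i ≠ j) :
    Nat.card (Quotient r) < Nat.card (Set.range (edq x r)) := by
  classical
  have : Fintype (ZMod l) := ZMod.fintype l
  have : Finite (Quotient r) := Quotient.finite _
  have : Finite (Set.range (edq x r)) := Set.finite_range _
  have hle : 2 * Nat.card (Quotient r) ≤ 2 * Nat.card (Set.range (edq x r)) ∧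
      (2 * Nat.card (Quotient r) = 2 * Nat.card (Set.range (edq x r)) → False) := by
    -- the two darts at each vertex
    let f : Quotient r × Bool → (Set.range (edq x r)) × Bool := fun p =>
      if p.2 then (⟨edq x r p.1.out, p.1.out, rfl⟩, (x p.1.out).2)
      else (⟨edq x r (p.1.out - 1), p.1.out - 1, rfl⟩, !(x (p.1.out - 1)).2)
    have hf : Function.Injective f := by
      rintro ⟨p, b⟩ ⟨q, c⟩ h
      simp only [f] at h
      cases b <;> cases c <;> simp only [if_true, if_false, Bool.false_eq_true, Prod.mk.injEq,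
        Subtype.mk.injEq, Bool.not_eq_eq_eq_not, Bool.not_not] at h
      · obtain ⟨h1, h2⟩ := edq_inj x r hr h.1 (by simpa using h.2)
        have h3 := hr.same _ _ h1 h2
        rw [sub_add_cancel, sub_add_cancel] at h3
        have h4 := Quotient.sound h3
        rw [Quotient.out_eq, Quotient.out_eq] at h4
        rw [h4]
      · exfalso
        obtain ⟨h1, h2, h3⟩ := edq_opp x r hr h.1 (by
          intro h'; rw [h'] at h; simp at h)
        rw [sub_add_cancel] at h2
        have h4 := Quotient.sound h2
        rw [Quotient.out_eq, Quotient.out_eq] at h4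
        subst h4
        refine hred (p.out - 1) ?_
        rw [sub_add_cancel, h3, fl_fl]
      · exfalso
        obtain ⟨h1, h2, h3⟩ := edq_opp x r hr h.1 (by
          intro h'; rw [h'] at h; simp at h)
        rw [sub_add_cancel] at h1
        have h4 := Quotient.sound h1
        rw [Quotient.out_eq, Quotient.out_eq] at h4
        subst h4
        refine hred (p.out - 1) ?_
        rw [sub_add_cancel, h3]
      · obtain ⟨h1, h2⟩ := edq_inj x r hr h.1 h.2
        have h4 := Quotient.sound h1
        rw [Quotient.out_eq, Quotient.out_eq] at h4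
        rw [h4]
    have c1 : Nat.card (Quotient r × Bool) = 2 * Nat.card (Quotient r) := by
      rw [Nat.card_prod]; simp [mul_comm]
    have c2 : Nat.card ((Set.range (edq x r)) × Bool) = 2 * Nat.card (Set.range (edq x r)) := by
      rw [Nat.card_prod]; simp [mul_comm]
    rw [← c1, ← c2]
    refine ⟨Nat.card_le_card_of_injective f hf, fun heq => ?_⟩
    have hsurj : Function.Surjective f := by
      have := Fintype.ofFinite (Quotient r)
      have := Fintype.ofFinite (Set.range (edq x r))
      exact ((Nat.bijective_iff_injective_and_card f).2 ⟨hf, heq⟩).2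
    -- darts at `i` are darts at the representative
    have hrep : ∀ i, (x i = x (Quotient.mk r i).out ∨ x i = fl (x ((Quotient.mk r i).out - 1))) ∧
        (fl (x (i - 1)) = x (Quotient.mk r i).out ∨
          fl (x (i - 1)) = fl (x ((Quotient.mk r i).out - 1))) := by
      intro i
      constructor
      · obtain ⟨⟨p, b⟩, hp⟩ := hsurj (⟨edq x r i, i, rfl⟩, (x i).2)
        simp only [f] at hp
        cases b <;> simp only [if_true, if_false, Bool.false_eq_true, Prod.mk.injEq,
          Subtype.mk.injEq] at hp
        · right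
          obtain ⟨h1, h2, h3⟩ := edq_opp x r hr hp.1 (by
            intro h'; rw [h'] at hp; simp at hp)
          rw [sub_add_cancel] at h2
          have h4 := Quotient.sound h2
          rw [Quotient.out_eq] at h4
          rw [← h4, h3, fl_fl]
        · left
          obtain ⟨h1, h2⟩ := edq_inj x r hr hp.1 hp.2
          have h4 := Quotient.sound h1
          rw [Quotient.out_eq] at h4
          rw [← h4, h2]
      · obtain ⟨⟨p, b⟩, hp⟩ := hsurj (⟨edq x r (i - 1), i - 1, rfl⟩, !(x (i - 1)).2)
        simp only [f] at hp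
        cases b <;> simp only [if_true, if_false, Bool.false_eq_true, Prod.mk.injEq,
          Subtype.mk.injEq, Bool.not_eq_eq_eq_not, Bool.not_not] at hp
        · right
          obtain ⟨h1, h2⟩ := edq_inj x r hr hp.1 (by simpa using hp.2)
          have h3 := hr.same _ _ h1 h2
          rw [sub_add_cancel, sub_add_cancel] at h3
          have h4 := Quotient.sound h3
          rw [Quotient.out_eq] at h4
          rw [← h4, h2]
        · left
          obtain ⟨h1, h2, h3⟩ := edq_opp x r hr hp.1 (by
            intro h'; rw [h'] at hp; simp at hp)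
          rw [sub_add_cancel] at h1
          have h4 := Quotient.sound h1
          rw [Quotient.out_eq] at h4
          rw [← h4, h3]
    obtain ⟨i, j, hij, hne⟩ := hne
    refine hne (period hr hred hper ?_ i j hij)
    intro i j hij
    have hq : Quotient.mk r i = Quotient.mk r j := Quotient.sound hij
    obtain ⟨a1, a2⟩ := hrep i
    obtain ⟨b1, b2⟩ := hrep j
    rw [← hq] at b1 b2
    have hi := hred (i - 1)
    have hj := hred (j - 1)
    rw [sub_add_cancel] at hi hj
    rcases a1 with a1 | a1 <;> rcases b1 with b1 | b1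
    · left; rw [a1, b1]
    · right
      rcases b2 with b2 | b2
      · rcases a2 with a2 | a2
        · exact absurd (a1.trans a2.symm) hi
        · exact ⟨a1.trans b2.symm, b1.trans a2.symm⟩
      · exact absurd (b1.trans b2.symm) hj
    · right
      rcases b2 with b2 | b2
      · exact absurd (b1.trans b2.symm) hj
      · rcases a2 with a2 | a2
        · exact ⟨a1.trans b2.symm, b1.trans a2.symm⟩
        · exact absurd (a1.trans a2.symm) hi
    · left; rw [a1, b1]
  obtain ⟨h1, h2⟩ := hle
  have h3 : Nat.card (Quotient r) ≠ Nat.card (Set.range (edq x r)) := fun h => h2 (by rw [h])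
  omega

variable (x r)

/-- sign of a crossing -/
def sg (i : ZMod l) : ℚ := if (x i).2 then 1 else -1

/-- total increment -/
noncomputable def tot : (Set.range (edq x r) → ℚ) →ₗ[ℚ] ℚ :=
  ∑ j ∈ Finset.range l, (sg x (j : ZMod l)) •
    LinearMap.proj (⟨edq x r (j : ZMod l), _, rfl⟩ : Set.range (edq x r))

/-- the potential with given increments -/
noncomputable def kk (i : ZMod l) : (Set.range (edq x r) → ℚ) →ₗ[ℚ] ℚ :=
  ∑ j ∈ Finset.range i.val, (sg x (j : ZMod l)) •
    LinearMap.proj (⟨edq x r (j : ZMod l), _, rfl⟩ : Set.range (edq x r))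

theorem kk_succ (h : Set.range (edq x r) → ℚ) (h0 : tot x r h = 0) (i : ZMod l) :
    kk x r (i + 1) h - kk x r i h = sg x i * h ⟨edq x r i, i, rfl⟩ := by
  have hl : 0 < l := Nat.pos_of_ne_zero (NeZero.ne l)
  have hi : i.val < l := ZMod.val_lt i
  have hc : ((i.val : ℕ) : ZMod l) = i := ZMod.natCast_zmod_val i
  rcases Nat.lt_or_ge (i.val + 1) l with h1 | h1
  · have h2 : (i + 1).val = i.val + 1 := by
      rw [ZMod.val_add_of_lt]
      · congr 1
        rcases Nat.lt_or_ge 1 l with h3 | h3
        · exact ZMod.val_one_eq_one_mod l ▸ Nat.mod_eq_of_lt h3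
        · omega
      · rcases Nat.lt_or_ge 1 l with h3 | h3
        · rw [ZMod.val_one_eq_one_mod l, Nat.mod_eq_of_lt h3]; exact h1
        · omega
    unfold kk
    rw [h2, Finset.sum_range_succ]
    simp only [LinearMap.add_apply, LinearMap.smul_apply, LinearMap.proj_apply, smul_eq_mul, hc]
    ring
  · have h2 : i.val + 1 = l := by omega
    have h3 : i + 1 = 0 := by
      rw [← hc]
      have : ((i.val + 1 : ℕ) : ZMod l) = 0 := by rw [h2]; exact ZMod.natCast_self l
      push_cast at this
      exact this
    have h4 : tot x r h = kk x r i h + sg x i * h ⟨edq x r i, i, rfl⟩ := by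
      unfold tot kk
      have e : Finset.range l = Finset.range (i.val + 1) := by rw [h2]
      rw [e, Finset.sum_range_succ]
      simp only [LinearMap.add_apply, LinearMap.smul_apply, LinearMap.proj_apply, smul_eq_mul, hc]
    rw [h3]
    have h5 : kk x r 0 h = 0 := by simp [kk]
    rw [h5]
    linarith

variable {x r}

theorem exists_pot (hr : IsDet x r) (hred : ∀ i, x (i + 1) ≠ fl (x i))
    (hper : ∀ d : ZMod l, d ≠ 0 → ∃ i, x (i + d) ≠ x i) (hne : ∃ i j, r i j ∧ i ≠ j) :
    ∃ k : ZMod l → ℚ, (∀ i j, r i j → x i = x j → k (i + 1) - k i = k (j + 1) - k j) ∧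
      (∀ i j, r i (j + 1) → x i = fl (x j) → k (i + 1) - k i = k j - k (j + 1)) ∧
      ∃ i j, r i j ∧ k i ≠ k j := by
  classical
  by_contra hcon
  push Not at hcon
  have : Fintype (ZMod l) := ZMod.fintype l
  have : Finite (Quotient r) := Quotient.finite _
  have : Finite (Set.range (edq x r)) := Set.finite_range _
  have : Fintype (Quotient r) := Fintype.ofFinite _
  have : Fintype (Set.range (edq x r)) := Fintype.ofFinite _
  have hconst : ∀ h, tot x r h = 0 → ∀ i j, r i j → kk x r i h = kk x r j h := by
    intro h h0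
    refine hcon (fun i => kk x r i h) ?_ ?_
    · intro i j hij hx
      rw [kk_succ x r h h0, kk_succ x r h h0]
      have e1 : (⟨edq x r i, i, rfl⟩ : Set.range (edq x r)) = ⟨edq x r j, j, rfl⟩ :=
        Subtype.ext (edq_same x r hr hij hx)
      rw [e1, sg, sg, hx]
    · intro i j hij hx
      rw [kk_succ x r h h0]
      have e1 : (⟨edq x r i, i, rfl⟩ : Set.range (edq x r)) = ⟨edq x r j, j, rfl⟩ :=
        Subtype.ext (edq_fl x r hr hij hx)
      have e2 := kk_succ x r h h0 j
      have e3 : sg x i = - sg x j := by
        unfold sg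
        rw [hx]
        cases hb : (x j).2 <;> simp [fl, hb]
      rw [e1, e3]
      linarith
  let Φ : (LinearMap.ker (tot x r)) × ℚ →ₗ[ℚ] (Quotient r → ℚ) :=
    LinearMap.pi fun q => ((kk x r q.out).comp (LinearMap.ker (tot x r)).subtype).comp
      (LinearMap.fst ℚ _ _) + LinearMap.snd ℚ _ _
  have hΦ : Function.Injective Φ := by
    rw [← LinearMap.ker_eq_bot, LinearMap.ker_eq_bot']
    rintro ⟨⟨h, h0⟩, c⟩ hz
    have h0' : tot x r h = 0 := h0
    have hz' : ∀ i : ZMod l, kk x r i h + c = 0 := by
      intro i
      have h1 := congrFun hz (Quotient.mk r i)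
      simp only [Φ, LinearMap.pi_apply, LinearMap.add_apply, LinearMap.comp_apply,
        LinearMap.fst_apply, LinearMap.snd_apply, Submodule.subtype_apply, Pi.zero_apply] at h1
      rw [hconst h h0' i _ (Quotient.exact (Quotient.out_eq _).symm)]
      exact h1
    have hc : c = 0 := by
      have := hz' 0
      simpa [kk] using this
    subst hc
    have hh : h = 0 := by
      ext ⟨e, i, rfl⟩
      have h1 := kk_succ x r h h0' i
      have h2 := hz' i
      have h3 := hz' (i + 1)
      simp only [add_zero] at h2 h3
      rw [h2, h3, sub_zero] at h1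
      have h4 : sg x i ≠ 0 := by
        unfold sg
        split_ifs <;> norm_num
      rcases mul_eq_zero.1 h1.symm with h5 | h5
      · exact absurd h5 h4
      · exact h5
    simp only [Prod.mk_eq_zero, and_true]
    exact Subtype.ext hh
  have h1 := LinearMap.finrank_le_finrank_of_injective hΦ
  rw [Module.finrank_prod, Module.finrank_self, Module.finrank_pi] at h1
  have h2 := LinearMap.finrank_range_add_finrank_ker (tot x r)
  rw [Module.finrank_pi] at h2
  have h3 : Module.finrank ℚ (LinearMap.range (tot x r)) ≤ 1 := by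
    have := Submodule.finrank_le (LinearMap.range (tot x r))
    rwa [Module.finrank_self] at this
  have h4 := card_lt hr hred hper hne
  rw [Nat.card_eq_fintype_card, Nat.card_eq_fintype_card] at h4
  omega

/-- stackings exist relative to any deterministic equivalence relation -/
theorem exists_stackOn (hred : ∀ i, x (i + 1) ≠ fl (x i))
    (hper : ∀ d : ZMod l, d ≠ 0 → ∃ i, x (i + d) ≠ x i) (N : ℕ) (r : Setoid (ZMod l))
    (hr : IsDet x r) (hN : Set.ncard {p : ZMod l × ZMod l | r p.1 p.2} ≤ N) :
    ∃ lt, IsStackOn x r lt := by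
  have : Fintype (ZMod l) := ZMod.fintype l
  induction N generalizing r with
  | zero =>
    exfalso
    have h1 : {p : ZMod l × ZMod l | r p.1 p.2} = ∅ := by
      rw [← Set.ncard_eq_zero (Set.toFinite _)]
      omega
    have h2 : ((0 : ZMod l), (0 : ZMod l)) ∈ {p : ZMod l × ZMod l | r p.1 p.2} := r.refl' 0
    rw [h1] at h2
    exact h2
  | succ N ih =>
    by_cases hne : ∃ i j, r i j ∧ i ≠ j
    · obtain ⟨k, k1, k2, i0, j0, k3, k4⟩ := exists_pot hr hred hper hne
      let r' : Setoid (ZMod l) :=
        { r := fun i j => r i j ∧ k i = k j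
          iseqv := ⟨fun i => ⟨r.refl' i, rfl⟩, fun h => ⟨r.symm' h.1, h.2.symm⟩,
            fun h h' => ⟨r.trans' h.1 h'.1, h.2.trans h'.2⟩⟩ }
      have hr' : IsDet x r' := by
        refine ⟨?_, ?_, ?_⟩
        · rintro i j ⟨h1, h2⟩ hx
          exact ⟨hr.same i j h1 hx, by linarith [k1 i j h1 hx]⟩
        · rintro i j ⟨h1, h2⟩ hx
          have h3 := hr.same' i j h1 hx
          exact ⟨h3, by linarith [k1 i j h3 hx]⟩
        · rintro i j ⟨h1, h2⟩ hx
          exact ⟨hr.opp i j h1 hx, by linarith [k2 i j h1 hx]⟩
      have hlt : Set.ncard {p : ZMod l × ZMod l | r' p.1 p.2} ≤ N := by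
        have h1 : {p : ZMod l × ZMod l | r' p.1 p.2} ⊂ {p : ZMod l × ZMod l | r p.1 p.2} := by
          refine ⟨fun p hp => hp.1, fun h => ?_⟩
          have h2 : ((i0, j0) : ZMod l × ZMod l) ∈ {p : ZMod l × ZMod l | r p.1 p.2} := k3
          exact k4 (h h2).2
        have := Set.ncard_lt_ncard h1 (Set.toFinite _)
        omega
      obtain ⟨lt', hs⟩ := ih r' hr' hlt
      refine ⟨fun i j => k i < k j ∨ (k i = k j ∧ lt' i j), ?_, ?_, ?_, ?_, ?_⟩
      · rintro i j m hij hjm (h1 | ⟨h1, h1'⟩) (h2 | ⟨h2, h2'⟩)
        · left; linarith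
        · left; linarith
        · left; linarith
        · right; exact ⟨h1.trans h2, hs.trans i j m ⟨hij, h1⟩ ⟨hjm, h2⟩ h1' h2'⟩
      · rintro i (h | ⟨-, h⟩)
        · exact lt_irrefl _ h
        · exact hs.irrefl i h
      · intro i j hij hne
        rcases lt_trichotomy (k i) (k j) with h | h | h
        · exact Or.inl (Or.inl h)
        · rcases hs.total i j ⟨hij, h⟩ hne with h' | h'
          · exact Or.inl (Or.inr ⟨h, h'⟩)
          · exact Or.inr (Or.inr ⟨h.symm, h'⟩)
        · exact Or.inr (Or.inl h)
      · intro i j hij hx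
        have h1 := k1 i j hij hx
        have e1 : k i < k j ↔ k (i + 1) < k (j + 1) := by constructor <;> intro <;> linarith
        have e2 : k i = k j ↔ k (i + 1) = k (j + 1) := by constructor <;> intro <;> linarith
        rw [e1]
        constructor
        · rintro (h | ⟨h, h'⟩)
          · exact Or.inl h
          · exact Or.inr ⟨e2.1 h, (hs.same i j ⟨hij, h⟩ hx).1 h'⟩
        · rintro (h | ⟨h, h'⟩)
          · exact Or.inl h
          · exact Or.inr ⟨e2.2 h, (hs.same i j ⟨hij, e2.2 h⟩ hx).2 h'⟩
      · intro i j hij hx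
        have h1 := k2 i j hij hx
        have e1 : k i < k (j + 1) ↔ k (i + 1) < k j := by constructor <;> intro <;> linarith
        have e2 : k i = k (j + 1) ↔ k (i + 1) = k j := by constructor <;> intro <;> linarith
        rw [e1]
        constructor
        · rintro (h | ⟨h, h'⟩)
          · exact Or.inl h
          · exact Or.inr ⟨e2.1 h, (hs.opp i j ⟨hij, h⟩ hx).1 h'⟩
        · rintro (h | ⟨h, h'⟩)
          · exact Or.inl h
          · exact Or.inr ⟨e2.2 h, (hs.opp i j ⟨hij, e2.2 h⟩ hx).2 h'⟩
    · push Not at hne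
      refine ⟨fun _ _ => False, fun _ _ _ _ _ h => h.elim, fun _ h => h, ?_, ?_, ?_⟩
      · intro i j hij h
        exact absurd (hne i j hij) h
      · intro i j _ _
        exact Iff.rfl
      · intro i j _ _
        exact Iff.rfl

/-- **stackings exist** -/
theorem exists_stack (hred : ∀ i, x (i + 1) ≠ fl (x i))
    (hper : ∀ d : ZMod l, d ≠ 0 → ∃ i, x (i + d) ≠ x i) : ∃ lt, IsStack x lt := by
  have hdet : IsDet x (⊤ : Setoid (ZMod l)) := ⟨fun _ _ _ _ => trivial, fun _ _ _ _ => trivial,
    fun _ _ _ _ => trivial⟩
  obtain ⟨lt, hs⟩ := exists_stackOn hred hper _ ⊤ hdet le_rfl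
  exact ⟨lt, fun i j k => hs.trans i j k trivial trivial, hs.irrefl,
    fun i j h => hs.total i j trivial h, fun i j h => hs.same i j trivial h,
    fun i j h => hs.opp i j trivial h⟩

end key

end Pool.Agent.Helper80.Tor
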